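import Pool.Agent.MP_8be872_ag.H50.CovB

/-! An invariant cover of the stable locus exists. -/

namespace Pool.Agent.MP_8be872_ag.H50

open Finset H38 H56 H63 MvPolynomial
open scoped Matrix

variable {Q : Quiv} {w v D : Fin Q.n → ℕ} {J : Type}

theorem msk_zero {A : Type} [Zero A] (M : Kd Q → Nb Q w v D → Nb Q w v D → A) {k : Kd Q}
    {p q : Nb Q w v D} (h : ¬ shape rad k p q) : msk rad M k p q = 0 := if_neg h

theorem msk_pos {A : Type} [Zero A] (M : Kd Q → Nb Q w v D → Nb Q w v D → A) {k : Kd Q}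
    {p q : Nb Q w v D} (h : shape rad k p q) : msk rad M k p q = M k p q := if_pos h

section Shape

variable {a b : Nb Q w v D} (har : arrow (.inr true) a b) (hbl : blk a ≤ blk b)
include har hbl

theorem shx_l {ε : Arr Q} {p : Nb Q w v D} (h : shape rad (kx ε) p a) : shape rad (kx ε) p b := by
  obtain ⟨h1, h2, h3⟩ := har
  obtain ⟨h4, h5⟩ := h
  refine ⟨?_, fun e => h5 (by omega)⟩
  rcases ε with ⟨_ | e, _ | _⟩ <;>
    simp only [Sum.elim_inl, id, arrow, if_true, Bool.false_eq_true, if_false] at h4 ⊢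
  · exact ⟨h4.1.trans h1, h4.2.1, h3⟩
  · omega
  · exact ⟨h4.1, h3, h4.2.2.1, h1 ▸ h4.2.2.2⟩
  · exact ⟨h4.1, h3, h4.2.2.1, h1 ▸ h4.2.2.2⟩

theorem shx_r {ε : Arr Q} {q : Nb Q w v D} (h : shape rad (kx ε) b q) : shape rad (kx ε) a q := by
  obtain ⟨h1, h2, h3⟩ := har
  obtain ⟨h4, h5⟩ := h
  refine ⟨?_, fun e => by have := h5 e; omega⟩
  rcases ε with ⟨_ | e, _ | _⟩ <;>
    simp only [Sum.elim_inl, id, arrow, if_true, Bool.false_eq_true, if_false] at h4 ⊢
  · omega
  · exact ⟨h1.trans h4.1, h2, h4.2.2⟩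
  · exact ⟨h2, h4.2.1, h1.trans h4.2.2.1, h4.2.2.2⟩
  · exact ⟨h2, h4.2.1, h1.trans h4.2.2.1, h4.2.2.2⟩

theorem msk_x {A : Type} [CommRing A] (Y : Kd Q → Matrix (Nb Q w v D) (Nb Q w v D) A)
    (hY : ∀ k p q, ¬ shape rad k p q → Y k p q = 0) (ε : Arr Q) :
    msk rad (fun k => Y k * Matrix.single a b 1 - Matrix.single a b 1 * Y k) (kx ε) =
      Y (kx ε) * Matrix.single a b 1 - Matrix.single a b 1 * Y (kx ε) := by
  ext p q
  by_cases h : shape rad (kx ε) p q
  · exact msk_pos _ h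
  · rw [msk_zero _ h, Matrix.sub_apply]
    have e1 : (Y (kx ε) * Matrix.single a b (1 : A)) p q = 0 := by
      by_cases e : q = b
      · rw [e, Matrix.mul_single_apply_same, hY _ _ _ fun h' => h (e ▸ shx_l har hbl h'), zero_mul]
      · exact Matrix.mul_single_apply_of_ne _ _ _ _ _ e _
    have e2 : (Matrix.single a b (1 : A) * Y (kx ε)) p q = 0 := by
      by_cases e : p = a
      · rw [e, Matrix.single_mul_apply_same, hY _ _ _ fun h' => h (e ▸ shx_r har hbl h'), mul_zero]
      · exact Matrix.single_mul_apply_of_ne _ _ _ _ _ e _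
    rw [e1, e2, sub_zero]

omit hbl in
theorem msk_a {A : Type} [CommRing A] (Y : Kd Q → Matrix (Nb Q w v D) (Nb Q w v D) A)
    (hY : ∀ k p q, ¬ shape rad k p q → Y k p q = 0) :
    msk rad (fun k => Y k * Matrix.single a b 1 - Matrix.single a b 1 * Y k) ka =
      Y ka * Matrix.single a b (if blk b = 0 then 1 else 0) - Matrix.single a b 1 * Y ka := by
  obtain ⟨h1, h2, h3⟩ := har
  ext p q
  by_cases h : shape rad ka p q
  · refine (msk_pos _ h).trans ?_
    change (Y ka * Matrix.single a b (1 : A)) p q - (Matrix.single a b (1 : A) * Y ka) p q = _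
    rw [Matrix.sub_apply]
    congr 1
    by_cases e : q = b
    · rw [if_pos (e ▸ h.2)]
    · rw [Matrix.mul_single_apply_of_ne _ _ _ _ _ e, Matrix.mul_single_apply_of_ne _ _ _ _ _ e]
  · rw [msk_zero _ h, Matrix.sub_apply]
    have e1 : (Y ka * Matrix.single a b (if blk b = 0 then 1 else 0 : A)) p q = 0 := by
      by_cases e : q = b
      · rw [e, Matrix.mul_single_apply_same]
        split_ifs with e'
        · rw [hY ka p a fun h' => h (e ▸ ⟨⟨h'.1.1.trans h1, h'.1.2.1, h3⟩, e'⟩), zero_mul]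
        · rw [mul_zero]
      · exact Matrix.mul_single_apply_of_ne _ _ _ _ _ e _
    have e2 : (Matrix.single a b (1 : A) * Y ka) p q = 0 := by
      by_cases e : p = a
      · rw [e, Matrix.single_mul_apply_same,
          hY ka b q fun h' => h (e ▸ ⟨⟨h1.trans h'.1.1, h2, h'.1.2.2⟩, h'.2⟩), mul_zero]
      · exact Matrix.single_mul_apply_of_ne _ _ _ _ _ e _
    rw [e1, e2, sub_zero]

end Shape

theorem map_dual {N R : Type} [CommRing R] [Algebra ℂ R] (d : Derivation ℂ R R)
    (M : Matrix N N R) : M.map (dual d) = M.map (algebraMap R (DualNumber R)) +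
      (DualNumber.eps : DualNumber R) • (M.map d).map (algebraMap R (DualNumber R)) := by
  ext1 p q
  exact dual_apply d _

theorem map_br {N A A' : Type} [Fintype N] [DecidableEq N] [CommRing A] [CommRing A']
    (h : A →+* A') (M : Matrix N N A) (a b : N) (c : A) :
    (M * Matrix.single a b c - Matrix.single a b 1 * M).map h =
      M.map h * Matrix.single a b (h c) - Matrix.single a b 1 * M.map h := by
  rw [Matrix.map_sub _ (map_sub h), Matrix.map_mul, Matrix.map_mul, Matrix.map_single,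
    Matrix.map_single, map_one]

theorem gd_inv [Fintype J] [DecidableEq J] (h2 : Glob2At Q w v D J) (P : Bas Q v → Pth Q w)
    (lab : Bas Q D → Bas Q v × ℕ) {a b : Nb Q w v D} (hab : a ≠ b)
    (har : arrow (.inr true) a b) (hbl : blk a ≤ blk b) :
    lie (J := J) rad a b (pol (gd P lab Ypol)) = 0 := by
  obtain ⟨dd, h1, hd⟩ := h2.der a b
  have hY : ∀ k p q, ¬ shape rad k p q → Ypol (w := w) (v := v) (D := D) (J := J) k p q = 0 :=
    fun k p q h => msk_zero _ h
  have h3 : dd (gd P lab Ypol) = 0 := by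
    refine dual_eq dd _ ?_
    rw [gd_map, gd_map]
    refine gd_gauge P lab _ _ hab har hbl DualNumber.eps (fun ε => ?_) ?_
    · have := exp_eps ((Ypol (J := J) (kx ε)).map
        (algebraMap _ (DualNumber (MvPolynomial (Ix Q w v D J) ℂ)))) a b
        DualNumber.eps 1 DualNumber.eps_mul_eps
      rw [mul_one] at this
      rw [this, map_dual, hd _ rfl, msk_x har hbl _ hY, map_br, map_one]
    · have := exp_eps ((Ypol (J := J) ka).map
        (algebraMap _ (DualNumber (MvPolynomial (Ix Q w v D J) ℂ)))) a b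
        DualNumber.eps (if blk b = 0 then 1 else 0) DualNumber.eps_mul_eps
      rw [mul_ite, mul_one, mul_zero] at this
      rw [this, map_dual, hd _ rfl, msk_a har _ hY, map_br, apply_ite (algebraMap _ _), map_one,
        map_zero]
  rw [h1, h3]
  exact Pi.single_zero _

/-- Homogeneous polynomials in the coordinates of degree zero. -/
def Hg [Fintype J] [DecidableEq J] (φ : J → G) (F : MvPolynomial (Ix Q w v D J) ℂ) (ψ : G) : Prop :=
  (pol F : Sp (Ix Q w v D J) (Ix Q w v D J)) ∈ mono fun μ => ws (wt bw φ) μ = ψ ∧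
    sup (fun g => ∃ τ p q, τ ≠ .inr false ∧ shape rad (.inl τ) p q ∧ g = gg (.inl τ) p q) μ

theorem gr_Hg [Fintype J] [DecidableEq J] (φ : J → G) : Gr (Hg (w := w) (v := v) (D := D) φ) where
  zero γ := pol_mem.2 fun m hm => (hm rfl).elim
  one := one_mem ⟨ws_zero _, fun _ h => (h rfl).elim⟩
  add {x y γ} a b := by
    have e : (pol (x + y) : Sp _ (Ix Q w v D J)) = pol x + pol y := Pi.single_add _ _ _
    rw [Hg, e]
    exact Submodule.add_mem _ a b
  neg {x γ} a := by
    have e : (pol (-x) : Sp _ (Ix Q w v D J)) = -pol x := Pi.single_neg _ _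
    rw [Hg, e]
    exact Submodule.neg_mem _ a
  mul {x y γ γ'} a b := by
    rw [Hg, ← mul_one_eq, mul_mul, Module.End.mul_apply, mul_one_eq]
    exact words_apply_mem (mul_mem_words_of_pol a) b fun _ _ h h' =>
      ⟨by rw [ws_add, h.1, h'.1], sup_add.2 ⟨h.2, h'.2⟩⟩

theorem Hg_Y [Fintype J] [DecidableEq J] (φ : J → G) (τ : Arr Q ⊕ Bool) (hτ : τ ≠ .inr false)
    (p q : Nb Q w v D) : Hg φ (Ypol (.inl τ) p q) (wt bw φ (gg (.inl τ) p q)) := by
  by_cases h : shape rad (.inl τ) p q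
  · rw [Ypol, msk_pos _ h]
    refine pol_mem.2 fun m hm => ?_
    have e : m = 0 + Finsupp.single (.inl (τ, p, q)) 1 := by
      by_contra e
      rw [zero_add] at e
      exact hm (by simpa [gg, coeff_X] using fun e' => e e'.symm)
    rw [e, ex_add, ex_zero, zero_add]
    exact ⟨ws_single _ _, sup_single.2 ⟨τ, p, q, hτ, h, rfl⟩⟩
  · rw [Ypol, msk_zero _ h]
    exact (gr_Hg φ).zero _

/-- Weights of the columns of `Fmat`. -/
noncomputable def rho (P : Bas Q v → Pth Q w) : Nb Q w v D → G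
  | .inl τ => bw (.inl τ : Nb Q w v D) + qq
  | .inr (.inl b) => bw (.inr (.inr (P b).1) : Nb Q w v D) - ((P b).2.map fun s => arrWt Q s.1).sum
  | .inr (.inr c) => bw (.inr (.inr c) : Nb Q w v D)

theorem Hg_F [Fintype J] [DecidableEq J] (φ : J → G) (P : Bas Q v → Pth Q w) (p q : Nb Q w v D) :
    Hg φ (Fmat P Ypol p q) (-bw p + rho P q) := by
  have h := gr_Hg (w := w) (v := v) (D := D) φ
  rcases q with τ | b | c
  · exact Gr.cast (Hg_Y φ (.inr true) (by simp) p (.inl τ)) (by
      change bw _ - bw p - -qq = -bw p + (bw _ + qq)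
      abel)
  · rw [Fmat_V, rho]
    induction (P b).2 generalizing p with
    | nil =>
      change Hg φ (Pi.single (M := fun _ => MvPolynomial _ ℂ) _ 1 p) _
      rw [Pi.single_apply]
      split_ifs with e
      · rw [e]
        exact Gr.cast h.one (by simp)
      · exact h.zero _
    | cons s l ih =>
      rw [colP_cons]
      split_ifs
      · refine h.sum _ fun r _ => Gr.cast (h.mul (Hg_Y φ (.inl s.1) (by simp) p r) (ih r)) ?_
        change bw r - bw p - arrWt Q s.1 + _ = _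
        rw [List.map_cons, List.sum_cons]
        abel
      · exact h.zero _
  · change Hg φ (if p = _ then 1 else 0) _
    split_ifs with e
    · rw [e]
      exact Gr.cast h.one (by simp [rho])
    · exact h.zero _

theorem Hg_gd [Fintype J] [DecidableEq J] (P : Bas Q v → Pth Q w)
    (lab : Bas Q D → Bas Q v × ℕ) :
    ∃ ψ, ∀ φ : J → G, Hg (w := w) φ (gd P lab Ypol) ψ := by
  let κ : G := ∑ p : Nb Q w v D, -bw p + ∑ p : Nb Q w v D, rho P p - qq
  refine ⟨(∑ p : Nb Q w v D, -bw p + ∑ p : Nb Q w v D, rho P p) +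
    (∑ τ, (((lab τ).2 + 1) • κ - rho P (.inr (.inl (lab τ).1) : Nb Q w v D)) +
      ∑ τ, rho P (.inl τ : Nb Q w v D)), fun φ => ?_⟩
  have h := gr_Hg (w := w) (v := v) (D := D) φ
  refine h.mul (h.det (Hg_F φ P)) (h.det fun τ τ' => ?_)
  refine Gr.cast (h.pow (ρ := rho P) (κ := κ) (fun p q => ?_) _ _ _) (by abel)
  rw [Bm_apply]
  rcases q with τ | b | c
  · refine Gr.cast (h.adj (Hg_F φ P) p (.inl τ)) ?_
    simp only [κ, rho]
    abel
  · exact h.zero _
  · exact h.zero _

theorem eval_gd (P : Bas Q v → Pth Q w) (lab : Bas Q D → Bas Q v × ℕ) (y : Ix Q w v D J → ℂ) :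
    eval y (gd P lab Ypol) = gd P lab (pt y) := by
  rw [gd_map]
  congr 1
  funext k
  ext p q
  by_cases h : shape rad k p q
  · rw [Matrix.map_apply, Ypol, pt, msk_pos _ h, msk_pos _ h]
    rcases k with k | k <;> simp [gg]
  · rw [Matrix.map_apply, Ypol, pt, msk_zero _ h, msk_zero _ h, map_zero]

theorem pt_congr {J' : Type} (y : Ix Q w v D J → ℂ) (t : J' → ℂ) :
    pt (J := J') (Sum.elim (fun e => y (.inl e)) t) = pt y := by
  funext k
  rcases k with k | k <;> rfl

/-- `α - s` is injective on `T`. -/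
def Haut (α : Matrix (Nb Q w v D) (Nb Q w v D) ℂ) : Prop :=
  ∀ (s : ℂ) (z : Nb Q w v D → ℂ), (∀ p, blk p ≠ 0 → z p = 0) → α *ᵥ z = s • z → z = 0

section Pt

variable {P : Bas Q v → Pth Q w} {Y : Kd Q → Matrix (Nb Q w v D) (Nb Q w v D) ℂ}

theorem Bm_shape (hP : ∀ b, ∃ ε l, (P b).2 = (ε, b.1) :: l)
    (hY : ∀ p q, ¬ shape rad ka p q → Y ka p q = 0) (hd : (Fmat P Y).det ≠ 0)
    (p q : Nb Q w v D) (h : ¬ shape rad ka p q) : Bm P Y p q = 0 := by
  rw [Bm_apply]
  split_ifs with hq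
  · by_cases e : vx p = vx q
    · rcases p with τ | b | c
      · exact (h ⟨⟨e, by simp [blk], by omega⟩, hq⟩).elim
      · exact (h ⟨⟨e, by simp [blk], by omega⟩, hq⟩).elim
      · refine adj_row _ _ (fun r => ?_) _ ?_
        · rcases r with τ | b | c'
          · rw [if_neg (by simp)]
            exact hY _ _ fun h' => by simpa [blk] using h'.1.2.1
          · obtain ⟨ε, l, hl⟩ := hP b
            rw [if_neg (by simp), Fmat_V, hl, colP_cons, if_neg (by simp [blk])]
          · rfl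
        · rintro rfl
          simp [blk] at hq
    · refine adj_block _ hd vx (fun r s hrs => ?_) p q e
      rcases s with τ | b | c
      · exact hY _ _ fun h' => hrs h'.1.1
      · obtain ⟨ε, l, hl⟩ := hP b
        rw [Fmat_V, hl, colP_cons, if_neg fun h' => hrs h'.2]
      · exact if_neg fun h' => hrs (by rw [h'])
  · rfl

theorem haut_iff (hd : (Fmat P Y).det ≠ 0) :
    Haut (Y ka) ↔ Haut (Bm P Y) := by
  have h1 : ∀ z : Nb Q w v D → ℂ, (∀ p, blk p ≠ 0 → z p = 0) → Fmat P Y *ᵥ z = Y ka *ᵥ z := by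
    intro z hz
    funext p
    refine sum_congr rfl fun q _ => ?_
    rcases q with τ | b | c
    · rfl
    · simp only [hz (.inr (.inl b)) (by simp [blk]), mul_zero]
    · simp only [hz (.inr (.inr c)) (by simp [blk]), mul_zero]
  have h2 : ∀ z : Nb Q w v D → ℂ, (∀ p, blk p ≠ 0 → z p = 0) →
      Bm P Y *ᵥ z = (Fmat P Y).adjugate *ᵥ z := by
    intro z hz
    funext p
    refine sum_congr rfl fun q _ => ?_
    simp only [Bm_apply]
    split_ifs with e
    · rfl
    · rw [hz q e, mul_zero, mul_zero]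
  constructor
  · intro h s z hz e
    exact haut hd (Matrix.mul_adjugate _) (fun z => ∀ p, blk p ≠ 0 → z p = 0)
      (fun s z hz e => h s z hz (h1 z hz ▸ e)) s z hz (h2 z hz ▸ e)
  · intro h s z hz e
    exact haut hd (Matrix.adjugate_mul _) (fun z => ∀ p, blk p ≠ 0 → z p = 0)
      (fun s z hz e => h s z hz ((h2 z hz).trans e)) s z hz ((h1 z hz).trans e)

theorem not_haut [IsEmpty (Bas Q v)] [Nonempty (Bas Q D)]
    (α : Matrix (Nb Q w v D) (Nb Q w v D) ℂ) (hY : ∀ p q, ¬ shape rad ka p q → α p q = 0) :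
    ¬ Haut α := by
  intro h
  obtain ⟨s, hs⟩ := Module.End.exists_eigenvalue
    (Matrix.toLin' (α.submatrix (Sum.inl : Bas Q D → _) Sum.inl))
  obtain ⟨z, hz⟩ := hs.exists_hasEigenvector
  have h1 := hz.apply_eq_smul
  rw [Matrix.toLin'_apply] at h1
  have h2 := h s (Sum.elim z 0) (fun p hp => by
    rcases p with τ | p
    · exact (hp rfl).elim
    · rfl) (by
    funext p
    rcases p with τ | b | c
    · simpa [Matrix.mulVec, dotProduct, Fintype.sum_sum_type] using congrFun h1 τ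
    · exact isEmptyElim b
    · have : ∀ q, α (.inr (.inr c)) q = 0 := fun q =>
        hY _ _ fun h' => by simpa [blk] using h'.1.2.1
      simp [Matrix.mulVec, dotProduct, this])
  exact hz.2 (funext fun τ => congrFun h2 (.inl τ))

end Pt

theorem cov : Glob2Stmt → ObsStmt → P1Stmt → SemiStmt → CovStmt := by
  intro h2 hO h1 _
  classical
  intro Q w v D P φ₀ hP
  by_cases hne : Nonempty (Bas Q D → Bas Q v × ℕ)
  swap
  · have e1 : IsEmpty (Bas Q v) := ⟨fun a => hne ⟨fun _ => (a, 0)⟩⟩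
    have e2 : Nonempty (Bas Q D) := by
      by_contra h
      exact hne ⟨fun τ => (h ⟨τ⟩).elim⟩
    refine ⟨0, Fin.elim0, Fin.elim0, fun j => j.elim0, fun y hy => ?_⟩
    rw [h1 Q w v D _ P φ₀ hP y hy]
    exact ⟨fun h => (not_haut _ (fun p q h => msk_zero _ h) h.1).elim, fun ⟨j, _⟩ => j.elim0⟩
  obtain ⟨hex, hobs⟩ := hO Q w v D
  choose! lab hlab using hex
  let S := (comps Q v D).filter fun d => ∃ y : Ix Q w v D Empty → ℂ, gd P (lab d) (pt y) ≠ 0
  let e := S.equivFin.symm
  choose ψ hψ using fun d => Hg_gd (J := Fin S.card) P (lab d)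
  refine ⟨S.card, fun j => gd P (lab (e j)) Ypol, fun j => ψ (e j), fun j => ⟨?_, hψ _ _,
    fun a b hab har hbl => gd_inv (h2 Q w v D _) P _ hab har hbl⟩, fun y hy => ?_⟩
  · obtain ⟨y, hy⟩ := (mem_filter.1 (e j).2).2
    intro h0
    refine hy ?_
    rw [← pt_congr y (0 : Fin S.card → ℂ), ← eval_gd]
    exact (congrArg _ h0).trans (map_zero _)
  · have hY : ∀ p q, ¬ shape rad ka p q → pt y ka p q = 0 := fun p q h => msk_zero _ h
    rw [h1 Q w v D _ P φ₀ hP y hy]
    simp only [eval_gd]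
    constructor
    · rintro ⟨hH, hd⟩
      obtain ⟨d, hd1, hd2⟩ := ((hobs lab hlab).1 _ (Bm_shape hP.1 hY hd)).1 ((haut_iff hd).1 hH)
      have h3 : gd P (lab d) (pt y) ≠ 0 := mul_ne_zero hd hd2
      refine ⟨e.symm ⟨d, mem_filter.2 ⟨hd1, Sum.elim (fun e => y (.inl e)) Empty.elim, ?_⟩⟩, ?_⟩
      · rwa [pt_congr]
      · rwa [Equiv.apply_symm_apply]
    · rintro ⟨j, hj⟩
      have hd := left_ne_zero_of_mul hj
      exact ⟨(haut_iff hd).2 (((hobs lab hlab).1 _ (Bm_shape hP.1 hY hd)).2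
        ⟨_, (mem_filter.1 (e j).2).1, right_ne_zero_of_mul hj⟩), hd⟩

end Pool.Agent.MP_8be872_ag.H50
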