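import Mathlib

/-! Gradings of determinants and adjugates; elementary matrix identities. -/

namespace Pool.Agent.MP_8be872_ag.H50

open Finset
open scoped Matrix

/-- A notion of homogeneous elements. -/
structure Gr {A Γ : Type} [CommRing A] [AddCommGroup Γ] (H : A → Γ → Prop) : Prop where
  zero : ∀ γ, H 0 γ
  one : H 1 0
  add : ∀ {x y γ}, H x γ → H y γ → H (x + y) γ
  neg : ∀ {x γ}, H x γ → H (-x) γ
  mul : ∀ {x y γ γ'}, H x γ → H y γ' → H (x * y) (γ + γ')

namespace Gr

variable {A Γ : Type} [CommRing A] [AddCommGroup Γ] {H : A → Γ → Prop} (h : Gr H)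
include h

omit h in
theorem cast {x : A} {γ γ' : Γ} (a : H x γ) (e : γ = γ') : H x γ' := e ▸ a

theorem sum {ι : Type} (s : Finset ι) {x : ι → A} {γ : Γ} (a : ∀ i ∈ s, H (x i) γ) :
    H (∑ i ∈ s, x i) γ :=
  Finset.sum_induction _ (fun y => H y γ) (fun _ _ => h.add) (h.zero γ) a

theorem prod {ι : Type} (s : Finset ι) {x : ι → A} {γ : ι → Γ} (a : ∀ i, H (x i) (γ i)) :
    H (∏ i ∈ s, x i) (∑ i ∈ s, γ i) := by
  classical
  induction s using Finset.induction_on with
  | empty => simpa using h.one
  | insert i s hi ih =>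
    rw [prod_insert hi, sum_insert hi]
    exact h.mul (a i) ih

variable {N : Type} [Fintype N] [DecidableEq N]

theorem det {M : Matrix N N A} {r c : N → Γ} (a : ∀ p q, H (M p q) (r p + c q)) :
    H M.det (∑ p, r p + ∑ p, c p) := by
  rw [Matrix.det_apply]
  refine h.sum _ fun σ _ => ?_
  have h1 : H (∏ i, M (σ i) i) (∑ p, r p + ∑ p, c p) :=
    cast (h.prod univ fun i => a (σ i) i) (by rw [sum_add_distrib, Equiv.sum_comp σ r])
  rcases Int.units_eq_one_or (Equiv.Perm.sign σ) with e | e
  · rwa [e, one_smul]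
  · rw [e, Units.neg_smul, one_smul]
    exact h.neg h1

theorem adj {M : Matrix N N A} {r c : N → Γ} (a : ∀ p q, H (M p q) (r p + c q)) (i j : N) :
    H (M.adjugate i j) (∑ p, r p + ∑ p, c p - r j - c i) := by
  rw [Matrix.adjugate_apply]
  refine cast (h.det (r := Function.update r j (-c i)) (c := c) fun p q => ?_) ?_
  · rw [Matrix.updateRow_apply]
    by_cases e : p = j
    · rw [if_pos e, e, Function.update_self, Pi.single_apply]
      split_ifs with e'
      · rw [e', neg_add_cancel]
        exact h.one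
      · exact h.zero _
    · rw [if_neg e, Function.update_of_ne e]
      exact a p q
  · rw [sum_update_of_mem (mem_univ j), ← add_sum_erase univ r (mem_univ j), sdiff_singleton_eq_erase]
    abel

theorem pow {M : Matrix N N A} {ρ : N → Γ} {κ : Γ} (a : ∀ p q, H (M p q) (κ + ρ q - ρ p)) (k : ℕ)
    (p q : N) : H ((M ^ k) p q) (k • κ + ρ q - ρ p) := by
  induction k generalizing p q with
  | zero =>
    rw [pow_zero, Matrix.one_apply]
    split_ifs with e
    · rw [e]
      exact cast h.one (by simp)
    · exact h.zero _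
  | succ k ih =>
    rw [pow_succ, Matrix.mul_apply]
    exact h.sum _ fun r _ => cast (h.mul (ih p r) (a r q)) (by rw [succ_nsmul]; abel)

end Gr

section Mat

variable {N : Type} [Fintype N] [DecidableEq N]

theorem adj_block {ι : Type} (F : Matrix N N ℂ) (hF : F.det ≠ 0) (c : N → ι)
    (h : ∀ p q, c p ≠ c q → F p q = 0) (p q : N) (hpq : c p ≠ c q) : F.adjugate p q = 0 := by
  classical
  let π : Matrix N N ℂ := Matrix.diagonal fun r => if c r = c p then 1 else 0
  have h1 : π * F = F * π := by
    ext r s
    simp only [π, Matrix.diagonal_mul, Matrix.mul_diagonal]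
    by_cases e : c r = c s
    · rw [e, mul_comm]
    · rw [h r s e, mul_zero, zero_mul]
  have h2 : F.det • (F.adjugate * π) = F.det • (π * F.adjugate) := by
    calc F.det • (F.adjugate * π) = F.adjugate * π * (F * F.adjugate) := by
          rw [Matrix.mul_adjugate, Matrix.mul_smul, Matrix.mul_one]
      _ = F.adjugate * F * (π * F.adjugate) := by
          rw [← Matrix.mul_assoc, Matrix.mul_assoc _ π, h1]
          simp only [Matrix.mul_assoc]
      _ = _ := by rw [Matrix.adjugate_mul, Matrix.smul_mul, Matrix.one_mul]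
  have h3 := congrFun (congrFun h2 p) q
  simp only [π, Matrix.smul_apply, Matrix.diagonal_mul, Matrix.mul_diagonal, if_neg hpq.symm,
    if_true, mul_zero, one_mul, smul_eq_mul] at h3
  exact (mul_eq_zero.1 h3.symm).resolve_left hF

theorem adj_row {A : Type} [CommRing A] (F : Matrix N N A) (p : N)
    (h : ∀ q, F p q = if p = q then 1 else 0) (q : N) (hpq : p ≠ q) : F.adjugate p q = 0 := by
  have h1 := congrFun (congrFun (Matrix.mul_adjugate F) p) q
  simpa [Matrix.mul_apply, h, Matrix.one_apply_ne hpq] using h1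

theorem haut {F B : Matrix N N ℂ} {d : ℂ} (hd : d ≠ 0) (h : F * B = d • 1) (T : (N → ℂ) → Prop)
    (hF : ∀ (s : ℂ) z, T z → F *ᵥ z = s • z → z = 0) (s : ℂ) (z : N → ℂ) (hz : T z)
    (e : B *ᵥ z = s • z) : z = 0 := by
  have h1 : d • z = s • F *ᵥ z := by
    rw [← Matrix.mulVec_smul, ← e, Matrix.mulVec_mulVec, h, Matrix.smul_mulVec, Matrix.one_mulVec]
  by_cases hs : s = 0
  · rw [hs, zero_smul] at h1
    exact (smul_eq_zero.1 h1).resolve_left hd
  · refine hF (s⁻¹ * d) z hz ?_
    rw [mul_smul, h1, smul_smul, inv_mul_cancel₀ hs, one_smul]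

variable {A : Type} [CommRing A]

theorem adj_of_inv {u u' : Matrix N N A} (h : u' * u = 1) (hd : u.det = 1) : u.adjugate = u' := by
  have := Matrix.mul_adjugate u
  rw [hd, one_smul] at this
  rw [← Matrix.one_mul u.adjugate, ← h, Matrix.mul_assoc, this, Matrix.mul_one]

theorem det_one_add_single (a b : N) (hab : a ≠ b) (c : A) :
    (1 + Matrix.single a b c).det = 1 := Matrix.det_transvection_of_ne a b hab c

theorem inv_single (a b : N) (hab : a ≠ b) (c : A) :
    (1 + Matrix.single a b (-c)) * (1 + Matrix.single a b c) = 1 := by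
  have := Matrix.transvection_mul_transvection_same (i := a) (j := b) hab (-c) c
  rwa [neg_add_cancel, Matrix.transvection_zero] at this

theorem conj_pow {t t' B : Matrix N N A} (h : t * t' = 1) (h' : t' * t = 1) (k : ℕ) :
    (t' * B * t) ^ k = t' * B ^ k * t := by
  induction k with
  | zero => simp [h']
  | succ k ih =>
    rw [pow_succ, ih, pow_succ]
    simp only [Matrix.mul_assoc]
    rw [← Matrix.mul_assoc t t', h, Matrix.one_mul]

end Mat

/-- A derivation as a map to the dual numbers. -/
noncomputable def dual {R : Type} [CommRing R] [Algebra ℂ R] (d : Derivation ℂ R R) :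
    R →+* DualNumber R where
  toFun x := TrivSqZeroExt.inl x + TrivSqZeroExt.inr (d x)
  map_one' := by simp
  map_zero' := by simp
  map_add' x y := by ext <;> simp
  map_mul' x y := by
    ext
    · simp
    · simp [mul_comm]

theorem dual_apply {R : Type} [CommRing R] [Algebra ℂ R] (d : Derivation ℂ R R) (x : R) :
    dual d x = algebraMap R (DualNumber R) x + DualNumber.eps * algebraMap R (DualNumber R) (d x) := by
  ext <;> simp [dual, TrivSqZeroExt.algebraMap_eq_inl]

theorem dual_eq {R : Type} [CommRing R] [Algebra ℂ R] (d : Derivation ℂ R R) (x : R)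
    (h : dual d x = algebraMap R (DualNumber R) x) : d x = 0 := by
  simpa [dual, TrivSqZeroExt.algebraMap_eq_inl] using congrArg TrivSqZeroExt.snd h

end Pool.Agent.MP_8be872_ag.H50
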