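import Pool.Agent.MP_8be872_ag.H63.SpecC
import Pool.Agent.MP_8be872_ag.H63.ApiA
import Pool.Agent.MP_8be872_ag.H50.CovA

/-! The functions of the cover: naturality, gauge invariance and values at points. -/

namespace Pool.Agent.MP_8be872_ag.H50

open Finset H38 H56 H63 MvPolynomial
open scoped Matrix

variable {Q : Quiv} {w v D : Fin Q.n → ℕ}

section Ring

variable {A A' : Type} [CommRing A] [CommRing A']

/-- The adjugate of `Fmat`, restricted to `T`. -/
noncomputable def Bm (P : Bas Q v → Pth Q w) (Y : Kd Q → Matrix (Nb Q w v D) (Nb Q w v D) A) :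
    Matrix (Nb Q w v D) (Nb Q w v D) A :=
  (Fmat P Y).adjugate * Matrix.diagonal fun p => if blk p = 0 then 1 else 0

/-- The functions of the cover. -/
noncomputable def gd (P : Bas Q v → Pth Q w) (lab : Bas Q D → Bas Q v × ℕ)
    (Y : Kd Q → Matrix (Nb Q w v D) (Nb Q w v D) A) : A :=
  (Fmat P Y).det * minorP lab (Bm P Y)

theorem Bm_apply (P : Bas Q v → Pth Q w) (Y : Kd Q → Matrix (Nb Q w v D) (Nb Q w v D) A)
    (p q : Nb Q w v D) : Bm P Y p q = if blk q = 0 then (Fmat P Y).adjugate p q else 0 := by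
  rw [Bm, Matrix.mul_diagonal, mul_ite, mul_one, mul_zero]

open Classical in
theorem colP_cons {N : Type} [Fintype N] (at' : Fin Q.n → N → Prop) (x : Arr Q → Matrix N N A)
    (y₀ : N → A) (s : Arr Q × Fin Q.n) (l : List (Arr Q × Fin Q.n)) (p : N) :
    colP at' x y₀ (s :: l) p = if at' s.2 p then (x s.1 *ᵥ colP at' x y₀ l) p else 0 := rfl

theorem colP_map {N : Type} [Fintype N] (h : A →+* A') (at' : Fin Q.n → N → Prop)
    (x : Arr Q → Matrix N N A) (y₀ : N → A) (l : List (Arr Q × Fin Q.n)) (p : N) :
    h (colP at' x y₀ l p) = colP at' (fun ε => (x ε).map h) (fun r => h (y₀ r)) l p := by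
  induction l generalizing p with
  | nil => rfl
  | cons s l ih =>
    rw [colP_cons, colP_cons]
    split_ifs
    · simp only [Matrix.mulVec, dotProduct, map_sum, map_mul, ih, Matrix.map_apply]
    · exact map_zero h

theorem Fmat_V (P : Bas Q v → Pth Q w) (Y : Kd Q → Matrix (Nb Q w v D) (Nb Q w v D) A)
    (p : Nb Q w v D) (b : Bas Q v) : Fmat P Y p (.inr (.inl b)) =
      colP (fun j p => blk p < 2 ∧ vx p = j) (fun ε => Y (kx ε))
        (Pi.single (.inr (.inr (P b).1)) 1) (P b).2 p := rfl

theorem Fmat_map (h : A →+* A') (P : Bas Q v → Pth Q w)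
    (Y : Kd Q → Matrix (Nb Q w v D) (Nb Q w v D) A) :
    (Fmat P Y).map h = Fmat P fun k => (Y k).map h := by
  ext p q
  rcases q with τ | b | c
  · rfl
  · rw [Matrix.map_apply, Fmat_V, Fmat_V, colP_map]
    congr 1
    funext r
    simp only [Pi.single_apply, apply_ite h, map_one, map_zero]
  · simp only [Matrix.map_apply, Fmat, apply_ite h, map_one, map_zero]

theorem gd_map (h : A →+* A') (P : Bas Q v → Pth Q w) (lab : Bas Q D → Bas Q v × ℕ)
    (Y : Kd Q → Matrix (Nb Q w v D) (Nb Q w v D) A) :
    h (gd P lab Y) = gd P lab fun k => (Y k).map h := by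
  have h1 : h.mapMatrix (Bm P Y) = Bm P fun k => (Y k).map h := by
    ext p q
    rw [RingHom.mapMatrix_apply, Matrix.map_apply, Bm_apply, Bm_apply, ← Fmat_map,
      ← RingHom.mapMatrix_apply, ← RingHom.map_adjugate, apply_ite h, map_zero]
    rfl
  rw [gd, gd, map_mul, RingHom.map_det, RingHom.mapMatrix_apply, Fmat_map, minorP, minorP,
    RingHom.map_det, ← h1]
  congr 2
  ext τ τ'
  rw [Matrix.of_apply, ← map_pow]
  rfl

theorem mul_tv {N : Type} [Fintype N] [DecidableEq N] (M : Matrix N N A) (a b : N) (c : A)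
    (p q : N) : (M * (1 + Matrix.single a b c)) p q = M p q + if b = q then M p a * c else 0 := by
  rw [Matrix.mul_add, Matrix.mul_one, Matrix.add_apply]
  split_ifs with e
  · rw [← e, Matrix.mul_single_apply_same]
  · rw [Matrix.mul_single_apply_of_ne _ _ _ _ _ (Ne.symm e)]

theorem tv_mul {N : Type} [Fintype N] [DecidableEq N] (M : Matrix N N A) (a b : N) (c : A)
    (p q : N) : ((1 + Matrix.single a b c) * M) p q = M p q + if a = p then c * M b q else 0 := by
  rw [Matrix.add_mul, Matrix.one_mul, Matrix.add_apply]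
  split_ifs with e
  · rw [← e, Matrix.single_mul_apply_same]
  · rw [Matrix.single_mul_apply_of_ne _ _ _ _ _ (Ne.symm e)]

theorem tv_mulVec {N : Type} [Fintype N] [DecidableEq N] (z : N → A) (a b : N) (c : A)
    (p : N) : ((1 + Matrix.single a b c) *ᵥ z) p = z p + if a = p then c * z b else 0 :=
  tv_mul (Matrix.of fun r _ => z r) a b c p p

theorem colP_gauge {N : Type} [Fintype N] [DecidableEq N] (at' : Fin Q.n → N → Prop)
    (x x' : Arr Q → Matrix N N A) (y₀ : N → A) {a b : N} (hab : a ≠ b) (c : A)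
    (hx : ∀ ε, x' ε = (1 + Matrix.single a b (-c)) * x ε * (1 + Matrix.single a b c))
    (h0 : y₀ b = 0) (hat : ∀ j, at' j a ↔ at' j b) (l : List (Arr Q × Fin Q.n)) :
    colP at' x' y₀ l = (1 + Matrix.single a b (-c)) *ᵥ colP at' x y₀ l := by
  induction l with
  | nil =>
    funext p
    rw [tv_mulVec]
    change y₀ p = y₀ p + if a = p then -c * y₀ b else 0
    rw [h0, mul_zero, ite_self, add_zero]
  | cons s l ih =>
    funext p
    have h1 := inv_single a b hab (-c)
    rw [neg_neg] at h1
    rw [colP_cons, ih, hx, Matrix.mulVec_mulVec, Matrix.mul_assoc, h1, Matrix.mul_one,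
      ← Matrix.mulVec_mulVec, tv_mulVec, tv_mulVec, colP_cons, colP_cons]
    by_cases e : a = p
    · subst e
      by_cases e' : at' s.2 a
      · simp only [if_pos e', if_pos ((hat _).1 e'), if_true]
      · simp only [if_neg e', if_neg (mt (hat _).2 e'), mul_zero, ite_self, add_zero]
    · simp only [if_neg e, add_zero]

theorem Fmat_gauge (P : Bas Q v → Pth Q w) (Y Y' : Kd Q → Matrix (Nb Q w v D) (Nb Q w v D) A)
    {a b : Nb Q w v D} (hab : a ≠ b) (har : arrow (.inr true) a b) (hbl : blk a ≤ blk b) (c c' : A)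
    (hc : blk b ≠ 0 → c' = 0)
    (hx : ∀ ε, Y' (kx ε) = (1 + Matrix.single a b (-c)) * Y (kx ε) * (1 + Matrix.single a b c))
    (ha : Y' ka = (1 + Matrix.single a b (-c)) * Y ka * (1 + Matrix.single a b c')) :
    Fmat P Y' = (1 + Matrix.single a b (-c)) * Fmat P Y * (1 + Matrix.single a b c') := by
  obtain ⟨h1, h2, h3⟩ := har
  ext p q
  rcases q with τ | b' | e
  · change Y' ka p _ = _
    rw [ha, Matrix.mul_assoc, Matrix.mul_assoc, tv_mul, tv_mul, mul_tv, mul_tv, mul_tv, mul_tv]
    by_cases e : b = .inl τ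
    · subst e
      rcases a with τ' | a | a
      · rfl
      · exact absurd hbl (by simp [blk])
      · exact absurd hbl (by simp [blk])
    · simp only [if_neg e]
      rfl
  · have e1 : ∀ z : A, (if b = .inr (.inl b') then z * c' else 0) = 0 := fun z => by
      split_ifs with e
      · rw [hc (by rw [e]; simp [blk]), mul_zero]
      · rfl
    rw [mul_tv, e1, add_zero, Fmat_V, colP_gauge _ (fun ε => Y (kx ε)) _ _ hab c hx]
    · rfl
    · refine Pi.single_eq_of_ne ?_ _
      rintro rfl
      simp [blk] at h3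
    · intro j
      simp only [h1, h2, h3]
  · have e1 : ∀ e, b ≠ .inr (.inr e) := by
      rintro e rfl
      simp [blk] at h3
    rw [mul_tv, if_neg (e1 e), add_zero, tv_mul]
    simp only [Fmat, if_neg (e1 e), mul_zero, ite_self, add_zero]

theorem gd_gauge (P : Bas Q v → Pth Q w) (lab : Bas Q D → Bas Q v × ℕ)
    (Y Y' : Kd Q → Matrix (Nb Q w v D) (Nb Q w v D) A)
    {a b : Nb Q w v D} (hab : a ≠ b) (har : arrow (.inr true) a b) (hbl : blk a ≤ blk b) (c : A)
    (hx : ∀ ε, Y' (kx ε) = (1 + Matrix.single a b (-c)) * Y (kx ε) * (1 + Matrix.single a b c))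
    (ha : Y' ka = (1 + Matrix.single a b (-c)) * Y ka *
      (1 + Matrix.single a b (if blk b = 0 then c else 0))) : gd P lab Y' = gd P lab Y := by
  set c' : A := if blk b = 0 then c else 0 with hc'
  have hF := Fmat_gauge P Y Y' hab har hbl c c' (fun h => if_neg h) hx ha
  have i1 := inv_single a b hab c'
  have i2 := inv_single a b hab (-c')
  have i3 := inv_single a b hab (-c)
  rw [neg_neg] at i2 i3
  have hB : Bm P Y' = (1 + Matrix.single a b (-c')) * Bm P Y * (1 + Matrix.single a b c') := by
    rw [Bm, Bm, hF, Matrix.adjugate_mul_distrib, Matrix.adjugate_mul_distrib,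
      adj_of_inv i1 (det_one_add_single a b hab _), adj_of_inv i3 (det_one_add_single a b hab _)]
    simp only [Matrix.mul_assoc]
    congr 2
    ext p q
    rw [tv_mul, mul_tv]
    congr 1
    simp only [Matrix.diagonal_apply, hc']
    by_cases e : a = p
    · subst e
      by_cases e' : b = q
      · subst e'
        by_cases e'' : blk b = 0
        · have : blk a = 0 := by omega
          simp [e'', this]
        · simp [e'']
      · simp [e']
    · simp [e, Ne.symm e]
  rw [gd, gd, hF, Matrix.det_mul, Matrix.det_mul, det_one_add_single a b hab,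
    det_one_add_single a b hab, one_mul, mul_one, hB]
  congr 1
  by_cases hb : blk b = 0
  · rcases b with τb | b | b
    swap
    · simp [blk] at hb
    swap
    · simp [blk] at hb
    rcases a with τa | a | a
    swap
    · simp [blk] at hbl
    swap
    · simp [blk] at hbl
    have hab' : τa ≠ τb := fun e => hab (by rw [e])
    rw [minorP, minorP, ← mul_one (Matrix.det (Matrix.of fun τ τ' => (Bm P Y ^ _) _ _)),
      ← det_one_add_single τa τb hab' c', ← Matrix.det_mul]
    congr 1
    ext τ τ'
    rw [Matrix.of_apply, conj_pow i2 i1, mul_tv, mul_tv, tv_mul, tv_mul]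
    simp
  · rw [hc', if_neg hb]
    simp

theorem exp_eps {N : Type} [Fintype N] [DecidableEq N] (M : Matrix N N A) (a b : N) (e c : A)
    (he : e * e = 0) : (1 + Matrix.single a b (-e)) * M * (1 + Matrix.single a b (e * c)) =
      M + e • (M * Matrix.single a b c - Matrix.single a b 1 * M) := by
  have h1 : Matrix.single a b (-e) = -(e • Matrix.single a b (1 : A)) := by
    rw [Matrix.smul_single, smul_eq_mul, mul_one, Matrix.single_neg]
  have h2 : Matrix.single a b (e * c) = e • Matrix.single a b c := by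
    rw [Matrix.smul_single, smul_eq_mul]
  rw [h1, h2]
  simp only [Matrix.add_mul, Matrix.mul_add, Matrix.one_mul, Matrix.mul_one, Matrix.neg_mul,
    Matrix.smul_mul, Matrix.mul_smul, smul_sub, smul_neg, smul_smul, he, zero_smul, smul_add]
  abel

end Ring

end Pool.Agent.MP_8be872_ag.H50
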