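import Pool.Agent.MP_8be872_ag.H63.SpecA

/-! Module K0: the Reynolds operator is locally a polynomial in the Casimir operator. -/

namespace Pool.Agent.MP_8be872_ag.H50

open Finset H63 Module

section fd

variable {W : Type} [AddCommGroup W] [Module ℂ W] [FiniteDimensional ℂ W]

/-- The trace of the square of an operator with real eigenvalues. -/
theorem trace_sq (T : End ℂ W) (h : ∀ μ, T.HasEigenvalue μ → μ.im = 0) :
    0 ≤ (LinearMap.trace ℂ W (T * T)).re ∧
      ((LinearMap.trace ℂ W (T * T)).re = 0 → IsNilpotent T) := by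
  have hs : (T * T).charpoly.Splits := IsAlgClosed.splits _
  have hroot : ∀ μ ∈ (T * T).charpoly.roots, ∃ r : ℝ, μ = ((r ^ 2 : ℝ) : ℂ) := by
    intro μ hμ
    have h1 : (T * T).HasEigenvalue μ :=
      (End.hasEigenvalue_iff_isRoot_charpoly _ _).2 (Polynomial.isRoot_of_mem_roots hμ)
    obtain ⟨v, hv⟩ := h1.exists_hasEigenvector
    have hv1 : T (T v) = μ • v := hv.apply_eq_smul
    obtain ⟨ν, rfl⟩ := IsAlgClosed.exists_eq_mul_self μ
    have hν : ν.im = 0 := by
      by_cases hw : T v + ν • v = 0
      · have : T.HasEigenvalue (-ν) := End.hasEigenvalue_of_hasEigenvector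
          ⟨End.mem_eigenspace_iff.2 (by rw [neg_smul]; exact eq_neg_of_add_eq_zero_left hw), hv.2⟩
        simpa using h _ this
      · refine h _ (End.hasEigenvalue_of_hasEigenvector ⟨End.mem_eigenspace_iff.2 ?_, hw⟩)
        rw [map_add, map_smul, hv1, smul_add, smul_smul, add_comm]
    refine ⟨ν.re, ?_⟩
    apply Complex.ext <;> simp [hν, sq]
  have hre : ∀ x ∈ (T * T).charpoly.roots.map Complex.re, 0 ≤ x := by
    intro x hx
    obtain ⟨μ, hμ, rfl⟩ := Multiset.mem_map.1 hx
    obtain ⟨r, rfl⟩ := hroot μ hμ
    rw [Complex.ofReal_re]; positivity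
  have htr : (LinearMap.trace ℂ W (T * T)).re = ((T * T).charpoly.roots.map Complex.re).sum := by
    rw [End.trace_eq_sum_roots_charpoly_of_splits hs]
    exact map_multiset_sum Complex.reAddGroupHom _
  refine ⟨htr ▸ Multiset.sum_nonneg hre, fun h0 => ?_⟩
  have hz : ∀ μ ∈ (T * T).charpoly.roots, μ = 0 := by
    intro μ hμ
    have := Multiset.all_zero_of_le_zero_le_of_sum_eq_zero hre (htr ▸ h0) μ.re
      (Multiset.mem_map_of_mem _ hμ)
    obtain ⟨r, rfl⟩ := hroot μ hμ
    rw [Complex.ofReal_re] at this
    rw [this, Complex.ofReal_zero]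
  have hch : (T * T).charpoly = Polynomial.X ^ (T * T).charpoly.roots.card := by
    conv_lhs => rw [hs.eq_prod_roots_of_monic (T * T).charpoly_monic]
    rw [Multiset.map_congr rfl (g := fun _ => Polynomial.X) fun μ hμ => by rw [hz μ hμ]; simp]
    simp
  have := (T * T).aeval_self_charpoly
  rw [hch, map_pow, Polynomial.aeval_X, ← sq, ← pow_mul] at this
  exact ⟨_, this⟩

variable {V ι : Type} [Fintype V] [DecidableEq V] [DecidableEq ι]

theorem nil_of_casimir (vert : V → ι) (e : V → V → End ℂ W) (hrel : GlRel vert e)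
    (hn : IsNilpotent (casimir vert e)) (h1 : ∀ a μ, (e a a).HasEigenvalue μ → μ.im = 0)
    (h2 : ∀ a b μ, (e a a - e b b).HasEigenvalue μ → μ.im = 0) (a : V) : IsNilpotent (e a a) := by
  have hpos : ∀ a b, 0 ≤ (LinearMap.trace ℂ W
      (if vert a = vert b then e a b * e b a else 0)).re := by
    intro a b
    split_ifs with hab
    · by_cases e1 : a = b
      · subst e1; exact (trace_sq _ (h1 a)).1
      · have r1 := hrel a b b a hab hab.symm
        have r2 := hrel a a a b rfl hab
        have r3 := hrel b b a b rfl hab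
        simp only [if_true, if_neg (Ne.symm e1), sub_zero, zero_sub] at r1 r2 r3
        have r4 : (e a a - e b b) * e a b - e a b * (e a a - e b b) = e a b + e a b := by
          calc _ = (e a a * e a b - e a b * e a a) - (e b b * e a b - e a b * e b b) := by
                noncomm_ring
            _ = _ := by rw [r2, r3, sub_neg_eq_add]
        have t1 : LinearMap.trace ℂ W ((e a a - e b b) * (e a a - e b b)) =
            2 * LinearMap.trace ℂ W (e a b * e b a) := by
          generalize e a a - e b b = H at r1 r4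
          calc LinearMap.trace ℂ W (H * H)
              = LinearMap.trace ℂ W (H * e a b * e b a) -
                  LinearMap.trace ℂ W (H * e b a * e a b) := by
                conv_lhs => rw [show H * H = H * (e a b * e b a - e b a * e a b) by rw [r1]]
                rw [mul_sub, map_sub, mul_assoc, mul_assoc]
            _ = LinearMap.trace ℂ W ((H * e a b - e a b * H) * e b a) := by
                rw [sub_mul, map_sub, LinearMap.trace_mul_comm ℂ (H * e b a), mul_assoc (e a b)]
            _ = 2 * LinearMap.trace ℂ W (e a b * e b a) := by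
                rw [r4, add_mul, map_add, two_mul]
        have := (trace_sq _ (h2 a b)).1
        rw [t1] at this
        simpa using this
    · simp
  have h0 : LinearMap.trace ℂ W (casimir vert e) = 0 :=
    (LinearMap.isNilpotent_trace_of_isNilpotent hn).eq_zero
  have h3 : ∑ a, ∑ b, (LinearMap.trace ℂ W
      (if vert a = vert b then e a b * e b a else 0)).re = 0 := by
    have := congrArg Complex.re h0
    simpa only [casimir, map_sum, Complex.re_sum, Complex.zero_re] using this
  have h4 := (sum_eq_zero_iff_of_nonneg fun a _ => sum_nonneg fun b _ => hpos a b).1 h3 a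
    (mem_univ a)
  have h5 := (sum_eq_zero_iff_of_nonneg fun b _ => hpos a b).1 h4 a (mem_univ a)
  rw [if_pos rfl] at h5
  exact (trace_sq _ (h1 a)).2 h5

end fd

section gen

variable {M : Type} [AddCommGroup M] [Module ℂ M]

theorem dis (T : End ℂ M) (μ : ℂ) (z : M) (h1 : z ∈ T.maxGenEigenspace μ)
    (h2 : z ∈ Submodule.span ℂ {y | ∃ ν, ν ≠ μ ∧ T y = ν • y}) : z = 0 := by
  refine Submodule.disjoint_def.1 (T.independent_maxGenEigenspace μ) z h1
    (Submodule.span_le.2 ?_ h2)
  rintro y ⟨ν, hν, hy⟩
  refine Submodule.mem_iSup_of_mem ν (Submodule.mem_iSup_of_mem hν ?_)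
  exact (End.mem_maxGenEigenspace _ _ _).2 ⟨1, by simp [hy]⟩

theorem im_zero (T : End ℂ M) (hT : ∀ x, x ∈ Submodule.span ℂ {y | ∃ n : ℤ, T y = (n : ℂ) • y})
    (μ : ℂ) (v : M) (hv : v ≠ 0) (h : T v = μ • v) : μ.im = 0 := by
  by_contra hne
  refine hv (dis T μ v ((End.mem_maxGenEigenspace _ _ _).2 ⟨1, by simp [h]⟩)
    (Submodule.span_mono ?_ (hT v)))
  rintro y ⟨n, hy⟩
  exact ⟨n, fun e => hne (by rw [← e]; simp), hy⟩

theorem zero_of_pow (T : End ℂ M) (hT : ∀ x, x ∈ Submodule.span ℂ {y | ∃ n : ℤ, T y = (n : ℂ) • y})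
    (v : M) (k : ℕ) (h : (T ^ k) v = 0) : T v = 0 := by
  refine dis T 0 (T v) ((End.mem_maxGenEigenspace _ _ _).2 ⟨k, ?_⟩) ?_
  · rw [zero_smul, sub_zero, ← End.mul_apply, ← pow_succ, pow_succ', End.mul_apply, h, map_zero]
  · refine Submodule.span_induction (p := fun x _ => T x ∈ Submodule.span ℂ
      {y | ∃ ν, ν ≠ (0 : ℂ) ∧ T y = ν • y}) ?_ (by simp) ?_ ?_ (hT v)
    · rintro y ⟨n, hy⟩
      rw [hy]
      by_cases hn : (n : ℂ) = 0
      · rw [hn, zero_smul]; exact zero_mem _
      · exact Submodule.smul_mem _ _ (Submodule.subset_span ⟨n, hn, hy⟩)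
    · intro x y _ _ hx hy
      rw [map_add]; exact add_mem hx hy
    · intro c x _ hx
      rw [map_smul]; exact Submodule.smul_mem _ _ hx

end gen

theorem casimir_comm {V ι A : Type} [Fintype V] [DecidableEq V] [DecidableEq ι] [Ring A]
    (vert : V → ι) (E : V → V → A) (hrel : GlRel vert E) (c d : V) (hcd : vert c = vert d) :
    Commute (casimir vert E) (E c d) := by
  have key : ∀ a b, (if vert a = vert b then E a b * E b a else 0) * E c d -
      E c d * (if vert a = vert b then E a b * E b a else 0) =
      ((if a = c then (if vert c = vert b then E c b * E b d else 0) else 0) -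
        (if b = d then (if vert a = vert c then E a d * E c a else 0) else 0)) +
      ((if b = c then (if vert a = vert c then E a d * E c a else 0) else 0) -
        (if a = d then (if vert c = vert b then E c b * E b d else 0) else 0)) := by
    intro a b
    by_cases hab : vert a = vert b
    · have r1 := hrel b a c d hab.symm hcd
      have r2 := hrel a b c d hab hcd
      rw [if_pos hab]
      have e : E a b * E b a * E c d - E c d * (E a b * E b a) =
          E a b * (E b a * E c d - E c d * E b a) + (E a b * E c d - E c d * E a b) * E b a := by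
        noncomm_ring
      rw [e, r1, r2, mul_sub, sub_mul]
      congr 2
      · by_cases h : a = c
        · subst h; simp [hab]
        · simp [h]
      · by_cases h : b = d
        · subst h; simp [hab, hcd]
        · simp [h, Ne.symm h]
      · by_cases h : b = c
        · subst h; simp [hab]
        · simp [h]
      · by_cases h : a = d
        · subst h; simp [hab, hcd]
        · simp [h, Ne.symm h]
    · rw [if_neg hab]
      have e1 : (if a = c then (if vert c = vert b then E c b * E b d else 0) else 0) = 0 := by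
        split_ifs with h h'
        · exact absurd (h ▸ h') hab
        all_goals rfl
      have e2 : (if b = d then (if vert a = vert c then E a d * E c a else 0) else 0) = 0 := by
        split_ifs with h h'
        · exact absurd (h'.trans (hcd.trans (h ▸ rfl))) hab
        all_goals rfl
      have e3 : (if b = c then (if vert a = vert c then E a d * E c a else 0) else 0) = 0 := by
        split_ifs with h h'
        · exact absurd (h ▸ h') hab
        all_goals rfl
      have e4 : (if a = d then (if vert c = vert b then E c b * E b d else 0) else 0) = 0 := by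
        split_ifs with h h'
        · exact absurd ((h ▸ hcd.symm : vert a = vert c).trans h') hab
        all_goals rfl
      rw [e1, e2, e3, e4]; simp
  rw [Commute, SemiconjBy, ← sub_eq_zero, casimir]
  simp only [sum_mul, mul_sum, ← sum_sub_distrib, key]
  simp only [sum_add_distrib, sum_sub_distrib, sum_ite_eq', mem_univ, if_true]
  rw [sum_comm, sum_comm (f := fun a b => if a = d then
    (if vert c = vert b then E c b * E b d else 0) else 0)]
  simp only [sum_ite_eq', mem_univ, if_true]
  abel

theorem k0 : K0Stmt := by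
  intro V ι M _ _ _ _ _ vert E hrel hloc x
  obtain ⟨U, hU, hxU, hst⟩ := hloc.fin x
  set Ω := casimir vert E with hΩ
  have hΩU : ∀ (U' : Submodule ℂ M), (∀ a b, vert a = vert b → ∀ y ∈ U', E a b y ∈ U') →
      ∀ y ∈ U', Ω y ∈ U' := by
    intro U' h y hy
    simp only [hΩ, casimir, LinearMap.sum_apply]
    refine sum_mem fun a _ => sum_mem fun b _ => ?_
    split_ifs with hab
    · exact h a b hab _ (h b a hab.symm y hy)
    · exact zero_mem _
  let Ω' : End ℂ U := Ω.restrict (hΩU U hst)
  obtain ⟨R, hR, hR0⟩ := Polynomial.exists_eq_pow_rootMultiplicity_mul_and_not_dvd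
    Ω'.charpoly Ω'.charpoly_monic.ne_zero 0
  set k := Polynomial.rootMultiplicity 0 Ω'.charpoly
  rw [map_zero, sub_zero] at hR hR0
  have hR1 : R.eval 0 ≠ 0 := by
    rwa [Polynomial.X_dvd_iff, Polynomial.coeff_zero_eq_eval_zero] at hR0
  have hae : ∀ (q : Polynomial ℂ) (y : U),
      ((Polynomial.aeval Ω' q y : U) : M) = Polynomial.aeval Ω q y := by
    intro q y
    induction q using Polynomial.induction_on' with
    | add p q hp hq => simp [hp, hq]
    | monomial n c =>
      simp only [Polynomial.aeval_monomial, End.mul_apply, Module.algebraMap_end_apply,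
        Submodule.coe_smul]
      rw [show Ω' ^ n = (Ω ^ n).restrict (End.pow_apply_mem_of_forall_mem n (hΩU U hst)) from
        End.pow_restrict n _]
      rfl
  refine ⟨Polynomial.C (R.eval 0)⁻¹ * R, by simp [hR1], ?_⟩
  let U0 : Submodule ℂ M := U ⊓ LinearMap.ker (Ω ^ k)
  have hst0 : ∀ a b, vert a = vert b → ∀ y ∈ U0, E a b y ∈ U0 := by
    intro a b hab y hy
    refine ⟨hst a b hab y hy.1, ?_⟩
    have h1 : (Ω ^ k) y = 0 := hy.2
    change (Ω ^ k) (E a b y) = 0
    rw [← End.mul_apply, ((casimir_comm vert E hrel a b hab).pow_left k).eq, End.mul_apply, h1,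
      map_zero]
  have hy0 : Polynomial.aeval Ω (Polynomial.C (R.eval 0)⁻¹ * R) x ∈ U0 := by
    refine ⟨?_, ?_⟩
    · rw [show x = ((⟨x, hxU⟩ : U) : M) from rfl, ← hae]; exact Subtype.property _
    · have h1 := hae Ω'.charpoly ⟨x, hxU⟩
      rw [Ω'.aeval_self_charpoly, hR] at h1
      simp only [map_mul, map_pow, Polynomial.aeval_X, End.mul_apply, LinearMap.zero_apply,
        ZeroMemClass.coe_zero] at h1
      change (Ω ^ k) _ = 0
      simp only [map_mul, Polynomial.aeval_C, End.mul_apply, Module.algebraMap_end_apply, map_smul]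
      rw [← h1, smul_zero]
  have : FiniteDimensional ℂ U0 := Submodule.finiteDimensional_of_le inf_le_left
  have hst1 : ∀ a b, ∀ y ∈ U0, (if vert a = vert b then E a b else 0) y ∈ U0 := by
    intro a b y hy
    split_ifs with hab
    · exact hst0 a b hab y hy
    · exact zero_mem _
  let e : V → V → End ℂ U0 := fun a b =>
    (if vert a = vert b then E a b else 0).restrict (hst1 a b)
  have he : ∀ a b, vert a = vert b → ∀ y : U0, ((e a b y : U0) : M) = E a b y := by
    intro a b hab y
    simp only [e, LinearMap.coe_restrict_apply, if_pos hab]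
  have hrel' : GlRel vert e := by
    intro a b c d hab hcd
    ext y
    have h1 := congrArg (fun T : End ℂ M => T y) (hrel a b c d hab hcd)
    simp only [LinearMap.sub_apply, End.mul_apply] at h1
    simp only [LinearMap.sub_apply, End.mul_apply, Submodule.coe_sub, he a b hab, he c d hcd, h1]
    congr 1
    · split_ifs with h
      · exact (he a d (hab.trans (h ▸ hcd)) y).symm
      · rfl
    · split_ifs with h
      · exact (he c b (hcd.trans (h ▸ hab)) y).symm
      · rfl
  have hcas : ∀ y : U0, ((casimir vert e y : U0) : M) = Ω y := by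
    intro y
    simp only [hΩ, casimir, LinearMap.sum_apply, Submodule.coe_sum]
    refine sum_congr rfl fun a _ => sum_congr rfl fun b _ => ?_
    split_ifs with hab
    · rw [End.mul_apply, End.mul_apply, he a b hab, he b a hab.symm]
    · rfl
  have hpow : ∀ (T : End ℂ U0) (S : End ℂ M), (∀ y : U0, ((T y : U0) : M) = S y) →
      ∀ (n : ℕ) (y : U0), (((T ^ n) y : U0) : M) = (S ^ n) y := by
    intro T S h n
    induction n with
    | zero => intro y; rfl
    | succ n ih => intro y; rw [pow_succ', pow_succ', End.mul_apply, End.mul_apply, h, ih]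
  have hd1 : ∀ a x, x ∈ Submodule.span ℂ {y | ∃ n : ℤ, E a a y = (n : ℂ) • y} := fun a x =>
    Submodule.span_mono (by rintro y ⟨n, hn⟩; exact ⟨n a, hn a⟩) (hloc.diag x)
  have hd2 : ∀ a b x, x ∈ Submodule.span ℂ {y | ∃ n : ℤ, (E a a - E b b) y = (n : ℂ) • y} :=
    fun a b x => Submodule.span_mono (by
      rintro y ⟨n, hn⟩
      exact ⟨n a - n b, by rw [LinearMap.sub_apply, hn, hn, Int.cast_sub, sub_smul]⟩) (hloc.diag x)
  have hnil : ∀ a, IsNilpotent (e a a) := by
    refine nil_of_casimir vert e hrel' ⟨k, ?_⟩ (fun a μ h => ?_) fun a b μ h => ?_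
    · ext y
      rw [hpow _ _ hcas]
      exact y.2.2
    · obtain ⟨v, hv⟩ := h.exists_hasEigenvector
      refine im_zero (E a a) (hd1 a) μ v (fun h0 => hv.2 (Subtype.ext h0)) ?_
      rw [← he a a rfl, hv.apply_eq_smul, Submodule.coe_smul]
    · obtain ⟨v, hv⟩ := h.exists_hasEigenvector
      refine im_zero (E a a - E b b) (hd2 a b) μ v (fun h0 => hv.2 (Subtype.ext h0)) ?_
      have := congrArg Subtype.val hv.apply_eq_smul
      rwa [LinearMap.sub_apply, Submodule.coe_sub, he a a rfl, he b b rfl, Submodule.coe_smul]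
        at this
  have hdiag : ∀ a, ∀ y ∈ U0, E a a y = 0 := by
    intro a y hy
    obtain ⟨n, hn⟩ := hnil a
    refine zero_of_pow (E a a) (hd1 a) y n ?_
    rw [show y = ((⟨y, hy⟩ : U0) : M) from rfl, ← hpow _ _ (he a a rfl), hn]
    rfl
  intro a b hab
  by_cases h : a = b
  · subst h; exact hdiag a _ hy0
  · have r := congrArg (fun T : End ℂ M => T (Polynomial.aeval Ω
      (Polynomial.C (R.eval 0)⁻¹ * R) x)) (hrel a a a b rfl hab)
    simp only [if_true, if_neg (Ne.symm h), sub_zero, LinearMap.sub_apply, End.mul_apply] at r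
    rw [← r, hdiag a _ (hst0 a b hab _ hy0), hdiag a _ hy0, map_zero, sub_zero]

end Pool.Agent.MP_8be872_ag.H50
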